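import Mathlib
import Pool.Agent.V11221.Neg3

/-!
MP_182b9e_gt, Q1: for both classes such a symmetrization exists if and only if `i = 0`.
-/

namespace Pool.Agent.Results.MP_182b9e_gt.ExactlyPoint

open Metric Pointwise MeasureTheory
open Pool.Agent.V11221.SpherCyl
open Pool.Agent.V11221.Supp
open Pool.Agent.V11221.Dia
open Pool.Agent.V11221.BallInt
open Pool.Agent.V11221.Neg1
open Pool.Agent.V11221.Neg3

/-- `◇` is mean width preserving. -/
def MWPreserving {n : ℕ} {B : Set (Set (E n))} {H : Submodule ℝ (E n)} (S : Symm B H) : Prop :=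
  ∀ K : {K : Set (E n) // K ∈ B}, meanWidth (S K).1 = meanWidth K.1

/-- `◇` is invariant on `H`-symmetric sets. -/
def FixSym {n : ℕ} {B : Set (Set (E n))} {H : Submodule ℝ (E n)} (S : Symm B H) : Prop :=
  ∀ K : {K : Set (E n) // K ∈ B}, HSym H K.1 → (S K).1 = K.1

/-- `◇` is invariant under translations orthogonal to `H` of `H`-symmetric sets. -/
def TransInv {n : ℕ} {B : Set (Set (E n))} {H : Submodule ℝ (E n)} (S : Symm B H) : Prop :=
  ∀ K : {K : Set (E n) // K ∈ B}, HSym H K.1 → ∀ y ∈ Hᗮ,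
    ∀ K' : {K : Set (E n) // K ∈ B}, K'.1 = K.1 + {y} → (S K').1 = (S K).1

lemma refl_bot {n : ℕ} (p : E n) : Pool.Agent.V11221.SpherCyl.refl (⊥ : Submodule ℝ (E n)) p = -p := by
  unfold Pool.Agent.V11221.SpherCyl.refl
  simp

lemma hsym_bot {n : ℕ} {K : Set (E n)} : HSym (⊥ : Submodule ℝ (E n)) K ↔ -K = K := by
  unfold HSym
  have : (Pool.Agent.V11221.SpherCyl.refl (⊥ : Submodule ℝ (E n))) = fun p => -p := by
    ext1 p; exact refl_bot p
  rw [this, Set.image_neg_eq_neg]

theorem result :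
    ∀ n : ℕ, 2 ≤ n → ∀ i : ℕ, i ≤ n - 2 →
      ∀ H : Submodule ℝ (E n), Module.finrank ℝ H = i →
      ∀ B : Set (Set (E n)), (B = Kall n ∨ B = Kbody n) →
        ((∃ S : Symm B H, Monotonic S ∧ MWPreserving S ∧ FixSym S ∧ ¬ TransInv S) ↔ i = 0) := by
  intro n hn i hi H hH B hB
  have hn0 : n ≠ 0 := by omega
  have hnt : Nontrivial (E n) := by
    have : Nonempty (Fin n) := ⟨⟨0, by omega⟩⟩
    infer_instance
  obtain ⟨c, hc, hcw⟩ := meanWidth_eq hnt hn0
  constructor
  · rintro ⟨S, hm, hw, hf, hnt⟩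
    by_contra hi0
    apply hnt
    have hHne : H ≠ ⊥ := by
      rintro rfl
      rw [finrank_bot] at hH
      exact hi0 hH.symm
    classical
    let s : Set (E n) → Set (E n) := fun K => if hK : K ∈ B then (S ⟨K, hK⟩).1 else ∅
    have hsK : ∀ K : {K : Set (E n) // K ∈ B}, s K.1 = (S K).1 := fun K => by
      simp only [s]
      rw [dif_pos K.2]
    have hs : Good H B s := by
      refine ⟨?_, ?_, ?_, ?_, ?_⟩
      · intro K hK
        rw [hsK ⟨K, hK⟩]
        exact (S ⟨K, hK⟩).2.1
      · intro K hK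
        rw [hsK ⟨K, hK⟩]
        exact (S ⟨K, hK⟩).2.2
      · intro K hK L hL hKL
        rw [hsK ⟨K, hK⟩, hsK ⟨L, hL⟩]
        exact hm _ _ hKL
      · intro K hK
        have h1 := hw ⟨K, hK⟩
        rw [hcw _ (nc_of_mem hB (S ⟨K, hK⟩).2.1), hcw _ (nc_of_mem hB hK)] at h1
        rw [hsK ⟨K, hK⟩]
        exact mul_left_cancel₀ hc.ne' h1
      · intro K hK hKs
        rw [hsK ⟨K, hK⟩]
        exact hf ⟨K, hK⟩ hKs
    intro K hKs y hy K' hK'
    have hKy : K.1 + {y} ∈ B := hK' ▸ K'.2
    have h1 := trans_B hB hs hHne K.2 hKs hy hKy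
    rw [← hK', hsK K'] at h1
    rw [h1, hf K hKs]
  · rintro rfl
    have hHbot : H = ⊥ := Submodule.finrank_eq_zero.1 hH
    subst hHbot
    let F := ballFnl n
    have hall : ∀ K ∈ B, K ∈ Kall n := fun K hK => nonempty_of_mem hB hK
    have hmem : ∀ K ∈ B, dia F K ∈ B := by
      intro K hK
      have hKN : NC K := nc_of_mem hB hK
      have hD := NC_dia F hKN
      have hBcase : B = Kall n ∨ (B = Kbody n ∧ (interior K).Nonempty) := by
        rcases hB with h1 | h1
        · exact Or.inl h1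
        · right
          refine ⟨h1, ?_⟩
          rw [h1] at hK
          exact hK.2.2
      rcases hBcase with h1 | ⟨h1, h2⟩
      · rw [h1]; exact ⟨hD.1, hD.2, convex_dia _ _⟩
      · rw [h1]; exact ⟨hD.2, convex_dia _ _, interior_dia F hKN h2 hnt⟩
    let S : Symm B (⊥ : Submodule ℝ (E n)) := fun K =>
      ⟨dia F K.1, hmem _ K.2, hsym_bot.2 (neg_dia F K.1)⟩
    refine ⟨S, ?_, ?_, ?_, ?_⟩
    · intro K L hKL
      exact dia_mono F (nc_of_mem hB K.2) (nc_of_mem hB L.2) hKL
    · intro K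
      have hKN := nc_of_mem hB K.2
      rw [hcw _ (nc_of_mem hB (S K).2.1), hcw _ hKN]
      congr 1
      exact L_dia F hKN
    · intro K hK
      exact dia_of_symm F (nc_of_mem hB K.2) (hall _ K.2).2.2 (hsym_bot.1 hK)
    · intro hT
      let a : E n := EuclideanSpace.single ⟨0, by omega⟩ 1
      let b : E n := EuclideanSpace.single ⟨1, by omega⟩ 1
      have ha : ‖a‖ = 1 := by simp [a]
      have hb : ‖b‖ = 1 := by simp [b]
      have hab : inner ℝ a b = 0 := by
        simp [a, b, EuclideanSpace.inner_single_left]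
      have hball : closedBall (0 : E n) 1 ∈ Kbody n :=
        ⟨isCompact_closedBall _ _, convex_closedBall _ _,
          ⟨0, ball_subset_interior_closedBall (mem_ball_self one_pos)⟩⟩
      have hballB : closedBall (0 : E n) 1 ∈ B := by
        rcases hB with h1 | h1
        · rw [h1]; exact nonempty_of_mem (Or.inr rfl) hball
        · rw [h1]; exact hball
      have htr : closedBall (0 : E n) 1 + {(3 : ℝ) • a} ∈ Kbody n := by
        refine ⟨hball.1.add isCompact_singleton, hball.2.1.add (convex_singleton _), ?_⟩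
        exact (hball.2.2.add (Set.singleton_nonempty _)).mono subset_interior_add_left
      have htrB : closedBall (0 : E n) 1 + {(3 : ℝ) • a} ∈ B := by
        rcases hB with h1 | h1
        · rw [h1]; exact nonempty_of_mem (Or.inr rfl) htr
        · rw [h1]; exact htr
      have hsymm : HSym (⊥ : Submodule ℝ (E n)) (closedBall (0 : E n) 1) := by
        rw [hsym_bot]; simp
      have h1 := hT ⟨_, hballB⟩ hsymm ((3 : ℝ) • a) (by simp) ⟨_, htrB⟩ rfl
      have h2 : dia F (closedBall (0 : E n) 1) = closedBall (0 : E n) 1 :=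
        dia_of_symm F (nc_of_mem hB hballB) (convex_closedBall _ _) (hsym_bot.1 hsymm)
      have h3 : dia F (closedBall (0 : E n) 1 + {(3 : ℝ) • a}) = dia F (closedBall (0 : E n) 1) := h1
      rw [h2] at h3
      exact dia_ball_ne F ha hb hab h3

end Pool.Agent.Results.MP_182b9e_gt.ExactlyPoint
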